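import Pool.Agent.TH56.CM.Har

/-!
# Harmonious labellings of lobsters modulo `N ≥ q + L - 2`

Let `T` be a lobster with `q ≥ 1` edges, and let `L` be the number of leaves of the caterpillar
obtained from `T` by deleting all leaves of `T`.  For every `N ≥ q + L - 2` the tree has a labelling
with elements of `ℤ_N` such that the edge sums are distinct and at most one pair of vertices has the
same label; if the inequality is strict, the labels are distinct.
-/

set_option autoImplicit false

namespace Pool.Agent.Results.MP_9ddc60_co.LobsterModulus

/-- The number of the vertices of `T` which are not leaves and have at most one neighbour that is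
not a leaf, i.e. of the vertices of degree at most `1` of the tree obtained from `T` by deleting all
leaves. -/
noncomputable def derivedLeaves {V : Type} (T : SimpleGraph V) : ℕ :=
  {x : V | 2 ≤ (T.neighborSet x).ncard ∧
    {y : V | T.Adj x y ∧ 2 ≤ (T.neighborSet y).ncard}.ncard ≤ 1}.ncard

/-- There is a path such that every vertex is at distance at most `2` from a vertex of the path. -/
def Lobster {V : Type} (T : SimpleGraph V) : Prop :=
  ∃ (x y : V) (q : T.Walk x y), q.IsPath ∧ ∀ z : V, ∃ u ∈ q.support, T.dist u z ≤ 2

/-- Let `T` be a lobster (a finite tree with a path such that all vertices are at distance at most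
`2` from the path) with `q ≥ 1` edges, `L` the number of leaves of the tree obtained from `T` by
deleting all leaves, and `N ≥ q + (L - 2)` (truncated subtraction).  Then there is a labelling `l` of
the vertices by residues modulo `N` such that different edges have different sums `l a + l b`, and
such that only one vertex `w` can have the same label as another vertex (so at most one pair of
vertices has equal labels); if `N` is greater than the bound then `l` is injective. -/
theorem result (V : Type) [Fintype V] (T : SimpleGraph V) (hT : T.IsTree)
    (hq : 1 ≤ T.edgeSet.ncard) (hlob : Lobster T) (N : ℕ)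
    (hN : T.edgeSet.ncard + (derivedLeaves T - 2) ≤ N) :
    ∃ l : V → ZMod N,
      (∀ a b c d, T.Adj a b → T.Adj c d → l a + l b = l c + l d → s(a, b) = s(c, d)) ∧
      (∃ w, ∀ a b, a ≠ w → b ≠ w → l a = l b → a = b) ∧
      (T.edgeSet.ncard + (derivedLeaves T - 2) < N → Function.Injective l) := by
  obtain ⟨M, hR, hM⟩ := Pool.Agent.TH56.CM.rlx_lob hT hq hlob
  obtain ⟨l, h1, h2, h3⟩ := hR.har hT hq N (hM.trans hN)
  exact ⟨l, h1, h2, fun h => h3 (lt_of_le_of_lt hM h)⟩

end Pool.Agent.Results.MP_9ddc60_co.LobsterModulus
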